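import Pool.Agent.GLE.StmtsA

/-!
GLE, row PIV: the determinant of the values of real monic polynomials of the pivot degrees.
-/

namespace Pool.Agent.GLE.H97

open Polynomial MeasureTheory

theorem piv (hD : DivStmt) (hP : PvtStmt) (hR : RooStmt) : PivStmt := by
  classical
  intro r g hm hirr hinj
  have hsep := fun i => (hR.1 (g i) (hm i) (hirr i)).1
  have hdeg := fun i => (hR.1 (g i) (hm i) (hirr i)).2
  have hroo := fun i => hR.2.1 (g i) (hm i) (hsep i)
  have hdisj : ∀ i j, i ≠ j → Disjoint (rt (g i)) (rt (g j)) := fun i j hij =>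
    hR.2.2 (g i) (g j) (hm i) (hm j) (hirr i) (hirr j) fun h => hij (hinj h)
  have hpsm : ∀ i k, psm (g i) k = ∑ z ∈ rt (g i), z ^ k := by
    intro i k
    unfold psm
    rw [(hroo i).2.1]
    rfl
  have hW : ∀ (k : ℕ) (i : Fin (r + 1)), ∃ m : ℤ, psm (g i) k = m := fun k i =>
    hD.1 (g i) (hm i) k
  choose W hW using hW
  have hcard : ∀ i, (rt (g i)).card = (g i).natDegree := fun i => (hroo i).1
  -- the first row
  have h0 : W 0 ≠ 0 := by
    intro h
    have h1 := hW 0 0
    rw [hpsm] at h1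
    simp only [pow_zero, Finset.sum_const, nsmul_eq_mul, mul_one] at h1
    rw [hcard, h] at h1
    have h2 : (g 0).natDegree = 0 := by
      have : (((g 0).natDegree : ℕ) : ℂ) = ((0 : ℕ) : ℂ) := by
        rw [h1]
        simp
      exact_mod_cast this
    have := hdeg 0
    omega
  -- separation
  have hsp : ∀ δ : Fin (r + 1) → ℤ, (∀ k < ∑ i, (g i).natDegree, ∑ i, δ i * W k i = 0) →
      δ = 0 := by
    intro δ hδ
    funext i₀
    have hne : (rt (g i₀)).Nonempty := by
      rw [← Finset.card_pos, hcard]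
      exact hdeg i₀
    obtain ⟨z₀, hz₀⟩ := hne
    obtain ⟨S, hS⟩ : ∃ S : Finset ℂ, S = Finset.univ.biUnion fun i => rt (g i) := ⟨_, rfl⟩
    have hzS : z₀ ∈ S := by
      rw [hS, Finset.mem_biUnion]
      exact ⟨i₀, Finset.mem_univ _, hz₀⟩
    have hSc : S.card ≤ ∑ i, (g i).natDegree := by
      rw [hS]
      refine Finset.card_biUnion_le.trans (le_of_eq ?_)
      exact Finset.sum_congr rfl fun i _ => hcard i
    obtain ⟨p, hp⟩ : ∃ p : ℂ[X], p = ∏ w ∈ S.erase z₀, (X - C w) := ⟨_, rfl⟩
    have hpd : p.natDegree < ∑ i, (g i).natDegree := by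
      rw [hp, natDegree_finsetProd_X_sub_C_eq_card, Finset.card_erase_of_mem hzS]
      have := Finset.card_pos.2 ⟨z₀, hzS⟩
      omega
    have hev : ∀ z : ℂ, p.eval z = ∏ w ∈ S.erase z₀, (z - w) := by
      intro z
      rw [hp, eval_prod]
      simp
    have hev0 : p.eval z₀ ≠ 0 := by
      rw [hev, Finset.prod_ne_zero_iff]
      intro w hw
      rw [Finset.mem_erase] at hw
      exact sub_ne_zero.2 (Ne.symm hw.1)
    have hev1 : ∀ z ∈ S, z ≠ z₀ → p.eval z = 0 := by
      intro z hz hzz
      rw [hev]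
      exact Finset.prod_eq_zero (Finset.mem_erase.2 ⟨hzz, hz⟩) (sub_self z)
    have key : ∑ i, (δ i : ℂ) * ∑ z ∈ rt (g i), p.eval z = 0 := by
      have e1 : ∀ i, ∑ z ∈ rt (g i), p.eval z =
          ∑ k ∈ Finset.range (∑ i, (g i).natDegree), p.coeff k * (W k i : ℂ) := by
        intro i
        simp only [eval_eq_sum_range' hpd]
        rw [Finset.sum_comm]
        refine Finset.sum_congr rfl fun k _ => ?_
        rw [← Finset.mul_sum, ← hpsm, hW]
      simp only [e1, Finset.mul_sum]
      rw [Finset.sum_comm]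
      refine Finset.sum_eq_zero fun k hk => ?_
      have h2 : (∑ i, (δ i : ℂ) * (W k i : ℂ)) = 0 := by
        have := hδ k (Finset.mem_range.1 hk)
        exact_mod_cast this
      calc ∑ i, (δ i : ℂ) * (p.coeff k * (W k i : ℂ))
          = p.coeff k * ∑ i, (δ i : ℂ) * (W k i : ℂ) := by
            rw [Finset.mul_sum]
            exact Finset.sum_congr rfl fun i _ => by ring
        _ = 0 := by rw [h2, mul_zero]
    rw [Finset.sum_eq_single i₀] at key
    · have e2 : ∑ z ∈ rt (g i₀), p.eval z = p.eval z₀ := by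
        refine Finset.sum_eq_single z₀ (fun z hz hzz => ?_) fun h => absurd hz₀ h
        refine hev1 z ?_ hzz
        rw [hS, Finset.mem_biUnion]
        exact ⟨i₀, Finset.mem_univ _, hz⟩
      rw [e2] at key
      rcases mul_eq_zero.1 key with h | h
      · exact_mod_cast h
      · exact absurd h hev0
    · intro i _ hi
      have e3 : ∑ z ∈ rt (g i), p.eval z = 0 := by
        refine Finset.sum_eq_zero fun z hz => ?_
        refine hev1 z ?_ ?_
        · rw [hS, Finset.mem_biUnion]
          exact ⟨i, Finset.mem_univ _, hz⟩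
        · rintro rfl
          exact Finset.disjoint_left.1 (hdisj i i₀ hi) hz hz₀
      rw [e3, mul_zero]
    · intro h
      exact absurd (Finset.mem_univ _) h
  -- divisibility
  have hdv : ∀ n, 1 ≤ n → ∀ δ : Fin (r + 1) → ℤ, (∀ k < n, ∑ i, δ i * W k i = 0) →
      (n : ℤ) ∣ ∑ i, δ i * W n i := by
    intro n hn δ hδ
    obtain ⟨m, hm'⟩ := hD.2 (r + 1) g hm δ n hn fun k hk => by
      simp only [hW]
      have := hδ k hk
      exact_mod_cast this
    refine ⟨m, ?_⟩
    simp only [hW] at hm'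
    exact_mod_cast hm'
  obtain ⟨κ, h1, h2, h3, h4⟩ := hP r W (∑ i, (g i).natDegree) h0 hsp hdv
  refine ⟨κ, h1, h2, h3, fun P hPm hPd => ?_⟩
  have h5 := h4 fun j k => (P j).coeff k
  have e : (Matrix.of fun (j i : Fin (r + 1)) => ∑ z ∈ rt (g i), (aeval z (P j)).re) =
      Matrix.of fun (j i : Fin (r + 1)) =>
          (W (κ j) i : ℝ) + ∑ k ∈ Finset.range (κ j), (P j).coeff k * (W k i : ℝ) := by
    ext j i
    rw [Matrix.of_apply, Matrix.of_apply]
    have e4 : ∀ z : ℂ, (aeval z (P j)).re =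
        ∑ k ∈ Finset.range (κ j + 1), (P j).coeff k * (z ^ k).re := by
      intro z
      rw [aeval_eq_sum_range, hPd j, Complex.re_sum]
      refine Finset.sum_congr rfl fun k _ => ?_
      rw [Complex.smul_re, smul_eq_mul]
    have e5 : ∀ k, ∑ z ∈ rt (g i), (z ^ k).re = (W k i : ℝ) := by
      intro k
      rw [← Complex.re_sum, ← hpsm, hW, Complex.intCast_re]
    simp only [e4]
    rw [Finset.sum_comm]
    simp only [← Finset.mul_sum, e5]
    rw [Finset.sum_range_succ]
    have e6 : (P j).coeff (κ j) = 1 := by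
      rw [← hPd j]
      exact hPm j
    rw [e6, one_mul, add_comm]
  rw [e]
  exact h5

end Pool.Agent.GLE.H97
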